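import Pool.Agent.H167R3.NR.Main

set_option autoImplicit false

/-!
# Nondeterministic circuits for unsatisfiability with few wirings, or with few wild gates

A circuit reads a 3-CNF formula over the letters `V` (one input bit for every clause) and guessed bits, one
for every element of `Y`. Its gates compute arbitrary functions, with values in an arbitrary set, of the bit
that they read and of the multiset of the labelled values on their wires. Whether the formula is accepted
may depend in any way on the table of the values of the output gate for all guesses; for a nondeterministic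
circuit the formula is accepted if some guess gives the right value. The circuit is sound if it accepts no
satisfiable formula, that is, if it refutes only unsatisfiable formulas.

A group `Γ` of sign changes acts on the formulas and, by permutations `σ`, on the guessed bits, where it
moves at most `g` of them. No symmetry of the circuit is assumed; the bounds are in terms of the number of
different transforms of the wirings of the gates, and of the number of the gates whose functions have more
than `m` transforms.
-/

namespace Pool.Agent.Results.MP_a77cad_lc.FewWirings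

open Pool.Agent.H525R2.Sym (Clause Satisfiable Holds numTrue)
open Pool.Agent.H429R4.Sem (Circuit Formula sysF)
open Pool.Agent.H429R4.GC (numWirings)
open Pool.Agent.H167R3.AG (numWild)
open Pool.Agent.H167R3.NR

theorem result :
    -- Sound circuits with few wirings refute few systems of equations.
    (∀ (V Y : Type) [Fintype V] [DecidableEq V] (Γ : AddSubgroup (V → ZMod 2))
      (σ : Γ → Equiv.Perm Y) (g n : ℕ), (∀ a b, σ (a + b) = σ a * σ b) →
      {y | ∃ a, σ a y ≠ y}.encard ≤ g → 2 ^ (3 * n + g / 2) ≤ Nat.card Γ →
      ∃ ι : Fin 3 × Fin n ↪ V, ∀ (Δ m : ℕ) (D L : Type) (C : Circuit (Clause V ⊕ Y) D L)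
        (Acc : ((Y → Bool) → D) → Prop), 0 < Δ → 2 ≤ m → 256 * m ^ 2 * Δ ^ 2 ≤ n →
        (∀ φ : Formula V, Satisfiable φ.1 → ¬ Acc (table C φ)) →
        numWirings inputs C (moves σ) ≤ 2 ^ (n / (256 * m ^ 2 * Δ ^ 2)) →
        ({y : Fin (Δ * n) → Fin 3 → Fin n | ∃ b, Acc (table C (sysF ι y b))}.ncard : ℝ) ≤
          32 / m * Fintype.card (Fin (Δ * n) → Fin 3 → Fin n)) ∧
    -- The formula `sysF ι y b` expresses the system of equations with left-hand sides `y` and
    -- right-hand sides `b`; almost all right-hand sides make it unsatisfiable (for `Δ > 3`).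
    (∀ (V : Type) [DecidableEq V] (n M : ℕ) (ι : Fin 3 × Fin n ↪ V) (y : Fin M → Fin 3 → Fin n),
      (∀ b α, (∀ c ∈ (sysF ι y b).1, Holds α c) ↔ ∀ j, ∑ a, α (ι (a, y j a)) = b j) ∧
      {b : Fin M → ZMod 2 | Satisfiable (sysF ι y b).1}.ncard ≤ 2 ^ (3 * n)) ∧
    -- Wild gates of sound circuits that refute all formulas that are far from satisfiable.
    (∀ ε : ℝ, 0 < ε → ∃ K : ℕ, ∀ (V Y D L : Type) [Fintype V] [DecidableEq V]
      (Γ : AddSubgroup (V → ZMod 2)) (σ : Γ → Equiv.Perm Y) (g : ℕ)
      (C : Circuit (Clause V ⊕ Y) D L) (Acc : ((Y → Bool) → D) → Prop) (m w : ℕ),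
      (∀ a b, σ (a + b) = σ a * σ b) → {y | ∃ a, σ a y ≠ y}.encard ≤ g → 0 < m →
      (∀ h, Multiset.card (C.wires h) ≤ w) →
      (∀ φ : Formula V, Satisfiable φ.1 → ¬ Acc (table C φ)) →
      (∀ φ : Formula V, 0 < φ.1.card → (∀ α, (numTrue α φ.1 : ℝ) ≤ (7 / 8 + ε) * φ.1.card) →
        Acc (table C φ)) →
      Nat.card Γ ≤ 2 ^ (g / 2) * (8 * m ^ w) ^ numWild inputs C (moves σ) m *
        (2 * C.size * (8 * m ^ w)) ^ K) := by
  refine ⟨?_, ?_, ?_⟩
  · intro V Y _ _ Γ σ g n hσ hg hn
    exact few_wirings Γ σ hσ hg hn
  · intro V _ n M ι y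
    exact ⟨fun b α => holds_sysF_iff ι y b α, card_satisfiable_le ι y⟩
  · intro ε hε
    exact wild_gates hε

end Pool.Agent.Results.MP_a77cad_lc.FewWirings
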