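import Mathlib
import Pool.Agent.NPC.Defs
import Pool.Agent.NPC.Dec
import Pool.Agent.H559R3.NDefs
import Pool.Agent.H670NU.NDefs
import Pool.Agent.H670NU.NPar

/-!
# `coNP` against nondeterministic circuits described by parallel `NP` queries and sublinear advice

Let `σ` be a nondecreasing function between a root of `log n` and `n ^ (1 - 1 / e)`. For every `k`
some language in `coNP` has no nondeterministic circuits of size `O(n * σ n ^ k)` whose
descriptions can be computed in polynomial time with one round of parallel queries to an `NP`
language and with `n / σ n` bits of advice.

If `coNP` is contained in `NP/poly` then every language in `coNP` has nondeterministic circuits of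
some polynomial size, with no condition on their descriptions.

This is a stronger form of the starting result `NondetSublinearAdvice` (descriptions computed bit by
bit in `NP ∩ coNP`). Proof.  Descriptions which are computed with parallel `NP` queries can be
described by two `NP` languages (the bits which are zero and the bits which are one), given the
advice and the number of positive answers, since the set of positive answers can be guessed and
checked; these two languages are complementary for the right advice only. The chain of languages of
the starting result is then adapted to such pairs: the language of the padded questions whether a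
bit is not zero, or not one, is in `coNP`, so it has small nondeterministic circuits, and these are
used to verify guessed bits of the previous description.
-/

namespace Pool.Agent.Results.MP_a77cad_lc.ParallelNPDescriptions

open Pool.Agent.NPC Pool.Agent.NPC.H559U Pool.Agent.H670NU

theorem result (σ : ℕ → ℕ) (hσ : Monotone σ) (t e : ℕ)
    (hσ1 : ∀ᶠ n in Filter.atTop, Nat.log 2 n ≤ σ n ^ t)
    (hσ2 : ∀ᶠ n in Filter.atTop, σ n ^ e * n ≤ n ^ e) (k : ℕ) :
    ∃ L, InCoNP L ∧ ∀ a : ℕ → ℕ, (∀ᶠ n in Filter.atTop, a n * σ n ≤ n) → ∀ c,
      ¬ HasParallelNPNCircuits a (fun n => c * (n * σ n ^ k)) L :=
  main_parN σ hσ t e hσ1 hσ2 k

end Pool.Agent.Results.MP_a77cad_lc.ParallelNPDescriptions
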